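import Pool.Agent.MP_154433_an.h31.Tw

/-! The maximal function for almost invariant weights. -/

set_option autoImplicit false

open MeasureTheory
open scoped BigOperators ComplexConjugate
open Finset

noncomputable section

namespace Pool.Agent.MP_154433_an.Mau

lemma amgm {t : ℝ} (ht : 0 < t) (y : ℝ) : y ≤ t / 2 + (2 * t)⁻¹ * y ^ 2 := by
  rw [← sub_nonneg]
  have : t / 2 + (2 * t)⁻¹ * y ^ 2 - y = (2 * t)⁻¹ * (y - t) ^ 2 := by
    field_simp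
    ring
  rw [this]
  positivity

variable {Ξ : Type} [Fintype Ξ] [Nonempty Ξ] {ch : Ξ → ℕ → ℂ} {M : ℕ}

omit [Fintype Ξ] in
/-- van der Corput in the inner variable -/
theorem vdc_in (hch : ∀ a d, ‖ch a d‖ ≤ 1)
    (hmul : ∀ a h h', ∃ c : ℂ, ‖c‖ ≤ 1 ∧ ∀ d, ch a (d + h) * conj (ch a (d + h')) = c)
    (ρ : ℕ → ℝ) (ρ0 : ∀ e, 0 ≤ ρ e) (ρ1 : ∑ e ∈ range M, ρ e ≤ 1) {H : ℕ} (hH : 1 ≤ H)
    {κ t : ℝ} (ht : 0 < t)
    (hκ : ∀ h < H, ∀ u : ℕ → ℂ, (∀ e, ‖u e‖ ≤ 1) → ‖∑ e ∈ range M, ρ e • (u (e + h) - u e)‖ ≤ κ)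
    (F : ℕ → ℂ) (hF : ∀ d, ‖F d‖ ≤ 1) :
    mx ch M ρ F ≤ κ + t / 2 + (2 * t)⁻¹ * ((H : ℝ)⁻¹ * (H : ℝ)⁻¹ * ∑ h ∈ range H, ∑ h' ∈ range H,
      ‖∑ d ∈ range M, (ρ d : ℂ) * (F (d + h') * conj (F (d + h)))‖) := by
  have H0 : (0 : ℝ) < H := by exact_mod_cast hH
  have H1 : (H : ℂ) ≠ 0 := by exact_mod_cast H0.ne'
  refine ciSup_le fun a => ?_
  let u : ℕ → ℂ := fun d => ch a d * F d
  have hu : ∀ d, ‖u d‖ ≤ 1 := fun d => by
    rw [norm_mul]; exact mul_le_one₀ (hch _ _) (norm_nonneg _) (hF _)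
  let Z : ℕ → ℂ := fun d => ∑ h ∈ range H, u (d + h)
  have s1 : (H : ℝ) * ‖∑ d ∈ range M, (ρ d : ℂ) * u d‖ ≤
      H * κ + ∑ d ∈ range M, ρ d * ‖Z d‖ := by
    have e1 : (H : ℂ) * ∑ d ∈ range M, (ρ d : ℂ) * u d =
        ∑ d ∈ range M, (ρ d : ℂ) * Z d -
          ∑ h ∈ range H, ∑ d ∈ range M, ρ d • (u (d + h) - u d) := by
      rw [sum_comm (s := range H), mul_sum, ← sum_sub_distrib]
      refine sum_congr rfl fun d _ => ?_
      simp only [Z, Complex.real_smul, ← mul_sum, sum_sub_distrib, sum_const, card_range,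
        nsmul_eq_mul]
      ring
    rw [← Complex.norm_natCast H, ← norm_mul, e1, Complex.norm_natCast, add_comm]
    refine (norm_sub_le _ _).trans (add_le_add ((norm_sum_le _ _).trans
      (sum_le_sum fun d _ => ?_)) ((norm_sum_le _ _).trans ?_))
    · rw [norm_mul, Complex.norm_real, Real.norm_of_nonneg (ρ0 d)]
    · refine (sum_le_sum fun h hh => hκ h (mem_range.1 hh) u hu).trans ?_
      rw [sum_const, card_range, nsmul_eq_mul]
  have s3 : ∑ d ∈ range M, ρ d * ‖Z d‖ ^ 2 ≤ ∑ h ∈ range H, ∑ h' ∈ range H,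
      ‖∑ d ∈ range M, (ρ d : ℂ) * (F (d + h') * conj (F (d + h)))‖ := by
    have e1 : ((∑ d ∈ range M, ρ d * ‖Z d‖ ^ 2 : ℝ) : ℂ) = ∑ h' ∈ range H, ∑ h ∈ range H,
        ∑ d ∈ range M, (ρ d : ℂ) * (u (d + h') * conj (u (d + h))) := by
      push_cast
      simp only [← Complex.mul_conj', Z, map_sum, sum_mul_sum]
      simp only [mul_sum]
      rw [sum_comm]
      exact sum_congr rfl fun i _ => sum_comm
    refine (le_abs_self _).trans ?_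
    rw [← Real.norm_eq_abs, ← Complex.norm_real, e1, sum_comm]
    refine (norm_sum_le _ _).trans (sum_le_sum fun h _ => (norm_sum_le _ _).trans
      (sum_le_sum fun h' _ => ?_))
    obtain ⟨c, c1, c2⟩ := hmul a h' h
    have e2 : ∑ d ∈ range M, (ρ d : ℂ) * (u (d + h') * conj (u (d + h))) =
        c * ∑ d ∈ range M, (ρ d : ℂ) * (F (d + h') * conj (F (d + h))) := by
      rw [mul_sum]
      refine sum_congr rfl fun d _ => ?_
      simp only [u, map_mul]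
      rw [← c2 d]
      ring
    rw [e2, norm_mul]
    exact mul_le_of_le_one_left (norm_nonneg _) c1
  have k : ∀ d ∈ range M, (H : ℝ)⁻¹ * (ρ d * ‖Z d‖) ≤
      t / 2 * ρ d + (2 * t)⁻¹ * ((H : ℝ)⁻¹ * (H : ℝ)⁻¹) * (ρ d * ‖Z d‖ ^ 2) := by
    intro d _
    refine le_trans (le_of_eq ?_) ((mul_le_mul_of_nonneg_left
      (amgm ht ((H : ℝ)⁻¹ * ‖Z d‖)) (ρ0 d)).trans (le_of_eq ?_))
    · ring
    · ring
  have k2 := sum_le_sum k
  rw [← mul_sum, sum_add_distrib, ← mul_sum, ← mul_sum] at k2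
  have k3 := mul_le_mul_of_nonneg_left s1 (inv_pos.2 H0).le
  rw [mul_add, ← mul_assoc, ← mul_assoc, inv_mul_cancel₀ H0.ne', one_mul, one_mul] at k3
  have k4 := mul_le_mul_of_nonneg_left s3
    (show 0 ≤ (2 * t)⁻¹ * ((H : ℝ)⁻¹ * (H : ℝ)⁻¹) by positivity)
  have k5 := mul_le_mul_of_nonneg_left ρ1 (show 0 ≤ t / 2 by positivity)
  rw [mul_assoc] at k4
  rw [mul_assoc] at k2
  linarith

variable {X Γ : Type} [MeasurableSpace X] [AddCommGroup Γ] {μ : Measure X}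
  [IsProbabilityMeasure μ] {A : Γ → X → X}

/-- the integrated form -/
theorem dw_fix (hmp : ∀ v, MeasurePreserving (A v) μ μ)
    (hadd : ∀ v w x, A (v + w) x = A v (A w x)) (u : Γ) {g : X → ℂ} (mg : Measurable g)
    (bg : ∀ x, ‖g x‖ ≤ 1) (hch : ∀ a d, ‖ch a d‖ ≤ 1)
    (hmul : ∀ a h h', ∃ c : ℂ, ‖c‖ ≤ 1 ∧ ∀ d, ch a (d + h) * conj (ch a (d + h')) = c)
    (ρ : ℕ → ℝ) (ρ0 : ∀ e, 0 ≤ ρ e) (ρ1 : ∑ e ∈ range M, ρ e ≤ 1) {H : ℕ} (hH : 1 ≤ H)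
    {κ t t' : ℝ} (ht : 0 < t) (ht' : 0 < t')
    (hκ : ∀ h < H, ∀ u : ℕ → ℂ, (∀ e, ‖u e‖ ≤ 1) → ‖∑ e ∈ range M, ρ e • (u (e + h) - u e)‖ ≤ κ) :
    ∫ x, mx ch M ρ (fun d => g (A ((d : ℤ) • u) x)) ∂μ ≤ κ + t / 2 + (2 * t)⁻¹ * (t' / 2 +
      (2 * t')⁻¹ * ((H : ℝ)⁻¹ * (H : ℝ)⁻¹ * ∑ h ∈ range H, ∑ h' ∈ range H,
        ∫ x, ‖∑ d ∈ range M, (ρ d : ℂ) * (g (A ((h' : ℤ) • u) (A ((d : ℤ) • u) x)) *
          conj (g (A ((h : ℤ) • u) (A ((d : ℤ) • u) x))))‖ ^ 2 ∂μ)) := by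
  have H0 : (0 : ℝ) < H := by exact_mod_cast hH
  have mA : ∀ v, Measurable (A v) := fun v => (hmp v).measurable
  have mc : Measurable (fun z : ℂ => conj z) := Complex.continuous_conj.measurable
  let G : ℕ → ℕ → X → ℂ := fun h h' x => ∑ d ∈ range M, (ρ d : ℂ) *
    (g (A ((h' : ℤ) • u) (A ((d : ℤ) • u) x)) * conj (g (A ((h : ℤ) • u) (A ((d : ℤ) • u) x))))
  have mG : ∀ h h', Measurable (G h h') := fun h h' => Finset.measurable_sum _ fun d _ =>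
    ((mg.comp ((mA _).comp (mA _))).mul (mc.comp (mg.comp ((mA _).comp (mA _))))).const_mul _
  have bG : ∀ h h' x, ‖G h h' x‖ ≤ 1 := fun h h' x => by
    refine (norm_sum_le _ _).trans (le_trans (sum_le_sum fun d _ => ?_) ρ1)
    rw [norm_mul, norm_mul, Complex.norm_real, Real.norm_of_nonneg (ρ0 d), Complex.norm_conj]
    exact mul_le_of_le_one_right (ρ0 d) (mul_le_one₀ (bg _) (norm_nonneg _) (bg _))
  have iG : ∀ h h', Integrable (fun x => ‖G h h' x‖ ^ 2) μ := fun h h' =>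
    int_bd ((mG h h').norm.pow_const 2) 1 fun x => by
      rw [norm_pow, norm_norm]; exact pow_le_one₀ (norm_nonneg _) (bG h h' x)
  have jG : Integrable (fun x => ∑ h ∈ range H, ∑ h' ∈ range H, ‖G h h' x‖ ^ 2) μ :=
    integrable_finsetSum _ fun h _ => integrable_finsetSum _ fun h' _ => iG h h'
  have jj := (integrable_const (κ + t / 2 + (2 * t)⁻¹ * (t' / 2))).add
    (jG.const_mul ((2 * t)⁻¹ * (2 * t')⁻¹ * ((H : ℝ)⁻¹ * (H : ℝ)⁻¹)))
  refine (integral_mono_of_nonneg (Filter.Eventually.of_forall fun x => mx_nonneg _) jj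
    (Filter.Eventually.of_forall fun x => ?_)).trans (le_of_eq ?_)
  · have s1 := vdc_in hch hmul ρ ρ0 ρ1 hH ht hκ (fun d => g (A ((d : ℤ) • u) x)) fun d => bg _
    have e1 : ∀ h h' : ℕ, ∑ d ∈ range M, (ρ d : ℂ) * (g (A (((d + h' : ℕ) : ℤ) • u) x) *
        conj (g (A (((d + h : ℕ) : ℤ) • u) x))) = G h h' x := fun h h' => by
      refine sum_congr rfl fun d _ => ?_
      simp only [← hadd, Nat.cast_add, add_smul, add_comm]
    simp only [e1] at s1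
    have s2 := sum_le_sum fun h (_ : h ∈ range H) => sum_le_sum fun h' (_ : h' ∈ range H) =>
      amgm ht' ‖G h h' x‖
    simp only [sum_add_distrib, sum_const, card_range, nsmul_eq_mul, ← mul_sum] at s2
    have s3 := mul_le_mul_of_nonneg_left s2
      (show 0 ≤ (2 * t)⁻¹ * ((H : ℝ)⁻¹ * (H : ℝ)⁻¹) by positivity)
    have e2 : (2 * t)⁻¹ * ((H : ℝ)⁻¹ * (H : ℝ)⁻¹) * (H * (H * (t' / 2)) +
        (2 * t')⁻¹ * ∑ h ∈ range H, ∑ h' ∈ range H, ‖G h h' x‖ ^ 2) =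
        (2 * t)⁻¹ * (t' / 2) + (2 * t)⁻¹ * (2 * t')⁻¹ * ((H : ℝ)⁻¹ * (H : ℝ)⁻¹) *
          ∑ h ∈ range H, ∑ h' ∈ range H, ‖G h h' x‖ ^ 2 := by
      field_simp
    rw [e2, mul_assoc] at s3
    simp only [Pi.add_apply]
    linarith
  · rw [integral_add' (integrable_const _) (jG.const_mul _), integral_const, integral_const_mul,
      probReal_univ, one_smul,
      integral_finsetSum _ fun h _ => integrable_finsetSum _ fun h' _ => iG h h',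
      sum_congr rfl fun h _ => integral_finsetSum _ fun h' _ => iG h h']
    ring

end Pool.Agent.MP_154433_an.Mau

end
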