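import Mathlib

/-! Small samples on which all members of a finite family have almost the right mean. -/

set_option autoImplicit false

open scoped BigOperators

noncomputable section

namespace Pool.Agent.MP_154433_an.Mau

lemma exp_le {y : ℝ} (h : |y| ≤ 1) : Real.exp y ≤ 1 + y + y ^ 2 := by
  have := (abs_le.1 (Real.abs_exp_sub_one_sub_id_le h)).2
  linarith

lemma greedy {G P : Type} [Fintype G] [Fintype P] (π : G → ℝ) (h0 : ∀ x, 0 ≤ π x)
    (hπ : ∑ x, π x = 1) (a : P → G → ℝ) (h1 : ∀ p x, |a p x| ≤ 1)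
    (h2 : ∀ p, ∑ x, π x * a p x = 0) {s : ℝ} (s0 : 0 ≤ s) (s1 : s ≤ 1) (n : ℕ) :
    ∃ t : Fin n → G, (∀ j, π (t j) ≠ 0) ∧
      ∑ p, Real.exp (s * ∑ j, a p (t j) - n * s ^ 2) ≤ Fintype.card P := by
  classical
  induction n with
  | zero => exact ⟨Fin.elim0, fun j => j.elim0, by simp⟩
  | succ n ih =>
    obtain ⟨t, ht0, ht⟩ := ih
    have key : ∀ p, ∑ x, π x * Real.exp (s * a p x - s ^ 2) ≤ 1 := fun p => by
      have e1 : ∀ x, π x * Real.exp (s * a p x - s ^ 2) ≤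
          (π x + s * (π x * a p x) + s ^ 2 * π x) * Real.exp (-s ^ 2) := fun x => by
        have e2 : Real.exp (s * a p x - s ^ 2) ≤ (1 + s * a p x + s ^ 2) * Real.exp (-s ^ 2) := by
          rw [sub_eq_add_neg, Real.exp_add]
          refine mul_le_mul_of_nonneg_right ((exp_le ?_).trans ?_) (Real.exp_pos _).le
          · rw [abs_mul, abs_of_nonneg s0]
            exact mul_le_one₀ s1 (abs_nonneg _) (h1 p x)
          · have := (sq_le_one_iff_abs_le_one _).2 (h1 p x)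
            nlinarith [sq_nonneg s]
        refine (mul_le_mul_of_nonneg_left e2 (h0 x)).trans (le_of_eq ?_)
        ring
      refine (Finset.sum_le_sum fun x _ => e1 x).trans ?_
      rw [← Finset.sum_mul, Finset.sum_add_distrib, Finset.sum_add_distrib, ← Finset.mul_sum,
        ← Finset.mul_sum, h2, hπ, mul_zero, add_zero, mul_one, Real.exp_neg, ← div_eq_mul_inv,
        div_le_one (Real.exp_pos _)]
      linarith [Real.add_one_le_exp (s ^ 2)]
    set Φ : ℝ := ∑ p, Real.exp (s * ∑ j, a p (t j) - n * s ^ 2) with hΦ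
    let f : G → ℝ := fun x => ∑ p, Real.exp (s * ∑ j, a p (t j) - n * s ^ 2) *
      Real.exp (s * a p x - s ^ 2)
    have hf : ∑ x, π x * f x ≤ Φ := by
      have e0 : ∑ x, π x * f x = ∑ p, Real.exp (s * ∑ j, a p (t j) - n * s ^ 2) *
          ∑ x, π x * Real.exp (s * a p x - s ^ 2) := by
        simp only [f, Finset.mul_sum]
        rw [Finset.sum_comm]
        exact Finset.sum_congr rfl fun p _ => Finset.sum_congr rfl fun x _ => by ring
      rw [e0]
      exact Finset.sum_le_sum fun p _ => mul_le_of_le_one_right (Real.exp_pos _).le (key p)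
    obtain ⟨x, hx0, hx⟩ : ∃ x, π x ≠ 0 ∧ f x ≤ Φ := by
      by_contra hc
      push Not at hc
      obtain ⟨x0, hx0⟩ : ∃ x, π x ≠ 0 := by
        by_contra h
        push Not at h
        simp [h] at hπ
      have : ∑ x, π x * Φ < ∑ x, π x * f x := by
        refine Finset.sum_lt_sum (fun x _ => ?_) ⟨x0, Finset.mem_univ _, ?_⟩
        · rcases eq_or_ne (π x) 0 with h | h
          · simp [h]
          · exact mul_le_mul_of_nonneg_left (hc x h).le (h0 x)
        · exact mul_lt_mul_of_pos_left (hc x0 hx0) ((h0 x0).lt_of_ne' hx0)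
      rw [← Finset.sum_mul, hπ, one_mul] at this
      linarith
    refine ⟨Fin.cons x t, fun j => ?_, le_trans (le_of_eq ?_) (hx.trans ht)⟩
    · refine Fin.cases ?_ (fun i => ?_) j
      · simpa using hx0
      · simpa using ht0 i
    refine Finset.sum_congr rfl fun p _ => ?_
    rw [← Real.exp_add, Fin.sum_univ_succ]
    simp only [Fin.cons_zero, Fin.cons_succ]
    congr 1
    push_cast
    ring

/-- one-sided real form -/
theorem sampR {G P : Type} [Fintype G] [Fintype P] (π : G → ℝ) (h0 : ∀ x, 0 ≤ π x)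
    (hπ : ∑ x, π x = 1) (φ : P → G → ℝ) (hφ : ∀ p x, |φ p x| ≤ 1) {η L : ℝ} (η0 : 0 < η)
    (η1 : η ≤ 1) (hL : (Fintype.card P : ℝ) ≤ Real.exp L) (n : ℕ) (n0 : 0 < n)
    (hn : 16 * L ≤ η ^ 2 * n) :
    ∃ t : Fin n → G, (∀ j, π (t j) ≠ 0) ∧
      ∀ p, (n : ℝ)⁻¹ * ∑ j, φ p (t j) - ∑ x, π x * φ p x ≤ η := by
  classical
  have hm : ∀ p, |∑ x, π x * φ p x| ≤ 1 := fun p => by
    refine (Finset.abs_sum_le_sum_abs _ _).trans (le_trans (Finset.sum_le_sum fun x _ => ?_) hπ.le)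
    rw [abs_mul, abs_of_nonneg (h0 x)]
    exact mul_le_of_le_one_right (h0 x) (hφ p x)
  obtain ⟨t, ht0, ht⟩ := greedy π h0 hπ (fun p x => (φ p x - ∑ y, π y * φ p y) / 2)
    (fun p x => by
      rw [abs_div, abs_two, div_le_one two_pos]
      exact (abs_sub _ _).trans (by linarith [hφ p x, hm p]))
    (fun p => by
      simp only [← mul_div_assoc, mul_sub]
      rw [← Finset.sum_div, Finset.sum_sub_distrib, ← Finset.sum_mul, hπ, one_mul, sub_self,
        zero_div]) (s := η / 4) (by positivity) (by linarith) n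
  refine ⟨t, ht0, fun p => ?_⟩
  have h1 := Real.exp_le_exp.1 ((Finset.single_le_sum
    (f := fun p : P => Real.exp
      (η / 4 * ∑ j, (φ p (t j) - ∑ y, π y * φ p y) / 2 - n * (η / 4) ^ 2))
    (fun _ _ => (Real.exp_pos _).le) (Finset.mem_univ p)).trans (ht.trans hL))
  have n3 : (0 : ℝ) < n := by exact_mod_cast n0
  rw [← Finset.sum_div, Finset.sum_sub_distrib, Finset.sum_const, Finset.card_univ,
    Fintype.card_fin, nsmul_eq_mul] at h1
  generalize ∑ j, φ p (t j) = S at *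
  generalize ∑ y, π y * φ p y = m at *
  have h2 : S - n * m ≤ η * n := by
    refine le_of_mul_le_mul_left ?_ η0
    nlinarith
  rw [sub_le_iff_le_add, inv_mul_le_iff₀ n3]
  linarith

/-- complex form -/
theorem samp {G P : Type} [Fintype G] [Fintype P] (π : G → ℝ) (h0 : ∀ x, 0 ≤ π x)
    (hπ : ∑ x, π x = 1) (φ : P → G → ℂ) (hφ : ∀ p x, ‖φ p x‖ ≤ 1) {η L : ℝ} (η0 : 0 < η)
    (η1 : η ≤ 1) (hL : (Fintype.card P : ℝ) ≤ Real.exp L) (n : ℕ) (n0 : 0 < n)
    (hn : 64 * (L + 2) ≤ η ^ 2 * n) :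
    ∃ t : Fin n → G, (∀ j, π (t j) ≠ 0) ∧
      ∀ p, ‖(n : ℂ)⁻¹ * ∑ j, φ p (t j) - ∑ x, (π x : ℂ) * φ p x‖ ≤ η := by
  classical
  let w : Fin 4 → ℂ := ![1, -1, Complex.I, -Complex.I]
  have hw : ∀ k, ‖w k‖ = 1 := fun k => by fin_cases k <;> simp [w]
  obtain ⟨t, ht0, ht⟩ := sampR (P := P × Fin 4) π h0 hπ (fun p x => (w p.2 * φ p.1 x).re)
    (fun p x => (Complex.abs_re_le_norm _).trans (by rw [norm_mul, hw, one_mul]; exact hφ _ _))
    (η := η / 2) (L := L + 2) (by positivity) (by linarith) (by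
      rw [Fintype.card_prod, Fintype.card_fin, Real.exp_add]
      push_cast
      refine mul_le_mul hL ?_ (by norm_num) (Real.exp_pos _).le
      have h2 : Real.exp 2 = Real.exp 1 * Real.exp 1 := by rw [← Real.exp_add]; norm_num
      nlinarith [Real.add_one_le_exp 1]) n n0 (by nlinarith)
  refine ⟨t, ht0, fun p => ?_⟩
  set z : ℂ := (n : ℂ)⁻¹ * ∑ j, φ p (t j) - ∑ x, (π x : ℂ) * φ p x with hz
  have key : ∀ k, (w k * z).re ≤ η / 2 := fun k => by
    refine le_trans (le_of_eq ?_) (ht (p, k))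
    have e1 : w k * z = ((n : ℝ)⁻¹ : ℝ) * ∑ j, w k * φ p (t j) -
        ∑ x, (π x : ℂ) * (w k * φ p x) := by
      rw [hz, mul_sub, ← Finset.mul_sum, Finset.mul_sum Finset.univ (fun x => (π x : ℂ) * φ p x)]
      push_cast
      congr 1
      · ring
      · exact Finset.sum_congr rfl fun x _ => by ring
    rw [e1, Complex.sub_re, Complex.re_ofReal_mul, Complex.re_sum, Complex.re_sum]
    simp only [Complex.re_ofReal_mul]
  have k0 := key 0
  have k1 := key 1
  have k2 := key 2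
  have k3 := key 3
  simp [w] at k0 k1 k2 k3
  refine (Complex.norm_le_abs_re_add_abs_im z).trans ?_
  have a1 : |z.re| ≤ η / 2 := abs_le.2 ⟨by linarith, k0⟩
  have a2 : |z.im| ≤ η / 2 := abs_le.2 ⟨by linarith, by linarith⟩
  linarith

/-! ### maximal functions of absolutely summable series -/

lemma sup_close {Ξ : Type} [Fintype Ξ] [Nonempty Ξ] (F F' : Ξ → ℂ) {η : ℝ}
    (h : ∀ a, ‖F a - F' a‖ ≤ η) : |(⨆ a, ‖F a‖) - ⨆ a, ‖F' a‖| ≤ η := by
  have k : ∀ F F' : Ξ → ℂ, (∀ a, ‖F a - F' a‖ ≤ η) → (⨆ a, ‖F a‖) ≤ (⨆ a, ‖F' a‖) + η := by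
    intro F F' h
    refine ciSup_le fun a => ?_
    have h1 : ‖F' a‖ ≤ ⨆ a, ‖F' a‖ := le_ciSup (f := fun a => ‖F' a‖) (Set.finite_range _).bddAbove a
    have h2 : ‖F a‖ ≤ ‖F a - F' a‖ + ‖F' a‖ := by simpa using norm_add_le (F a - F' a) (F' a)
    linarith [h a]
  have k1 := k F F' h
  have k2 := k F' F fun a => by rw [norm_sub_rev]; exact h a
  exact abs_le.2 ⟨by linarith, by linarith⟩

/-- the four units -/
def un : Fin 4 → ℂ := ![1, -1, Complex.I, -Complex.I]

/-- the four nonnegative parts -/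
def pa (z : ℂ) : Fin 4 → ℝ := ![max z.re 0, max (-z.re) 0, max z.im 0, max (-z.im) 0]

lemma un_norm (k : Fin 4) : ‖un k‖ = 1 := by fin_cases k <;> simp [un]

lemma pa_nonneg (z : ℂ) (k : Fin 4) : 0 ≤ pa z k := by fin_cases k <;> simp [pa]

lemma pa_sum (z : ℂ) : ∑ k, pa z k ≤ 2 * ‖z‖ := by
  have h1 := Complex.abs_re_le_norm z
  have h2 := Complex.abs_im_le_norm z
  have e : ∀ x : ℝ, max x 0 + max (-x) 0 = |x| := fun x => max_zero_add_max_neg_zero_eq_abs_self x
  simp only [Fin.sum_univ_four, pa, Matrix.cons_val_zero, Matrix.cons_val_one, Matrix.cons_val]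
  linarith [e z.re, e z.im]

lemma pa_un (z : ℂ) : ∑ k, (pa z k : ℂ) * un k = z := by
  have e : ∀ x : ℝ, max x 0 - max (-x) 0 = x := fun x => max_zero_sub_max_neg_zero_eq_self x
  simp only [Fin.sum_univ_four, pa, un, Matrix.cons_val_zero, Matrix.cons_val_one, Matrix.cons_val]
  apply Complex.ext
  · simp
    linarith [e z.re]
  · simp
    linarith [e z.im]

/-- the atoms of the sampling -/
def atm {Ξ Ξ' : Type} {M : ℕ} (ch : Ξ → ℕ → ℂ) (ch' : Ξ' → ℕ → ℂ) (a : Ξ) (e : ℕ) :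
    Option (Fin M × Ξ' × Fin 4) → ℂ
  | none => 0
  | some x => un x.2.2 * (ch a x.1 * ch' x.2.1 e)

/-- Maximal functions `e ↦ max_a |∑_d lam d * ch a d * ∑_ξ c d ξ * ch' ξ e|` with absolutely
summable coefficients have a small net in the uniform norm. -/
theorem twNet (A ε : ℝ) (hA : 0 < A) (hε : 0 < ε) : ∃ C : ℝ, 0 ≤ C ∧
    ∀ (M N : ℕ) (Ξ Ξ' : Type) [Fintype Ξ] [Nonempty Ξ] [Fintype Ξ'] (ch : Ξ → ℕ → ℂ)
      (ch' : Ξ' → ℕ → ℂ), (∀ a d, ‖ch a d‖ ≤ 1) → (∀ a d, ‖ch' a d‖ ≤ 1) → 1 ≤ N → M ≤ N →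
      Fintype.card Ξ ≤ N → Fintype.card Ξ' ≤ N →
    ∃ S : Finset (ℕ → ℂ), (∀ c ∈ S, ∀ e, ‖c e‖ ≤ 1) ∧
      (S.card : ℝ) ≤ Real.exp (C * (Real.log N + 1) ^ 2) ∧
      ∀ (lam : ℕ → ℝ) (c : ℕ → Ξ' → ℂ), (∀ d, 0 ≤ lam d) → ∑ d ∈ Finset.range M, lam d ≤ 1 →
        (∀ d, ∑ ξ, ‖c d ξ‖ ≤ A) → ∃ q : ℕ → ℝ, (fun e => (q e : ℂ)) ∈ S ∧ ∀ e < M,
          |(⨆ a, ‖∑ d ∈ Finset.range M, (lam d : ℂ) * (ch a d * ∑ ξ, c d ξ * ch' ξ e)‖) -
            2 * A * q e| ≤ ε := by
  classical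
  obtain ⟨η, η0, η1, η2⟩ : ∃ η : ℝ, 0 < η ∧ η ≤ 1 ∧ 2 * A * η ≤ ε :=
    ⟨min (ε / (2 * A)) 1, by positivity, min_le_right _ _, by
      have := min_le_left (ε / (2 * A)) 1
      rw [le_div_iff₀ (by positivity)] at this
      linarith⟩
  refine ⟨(128 / η ^ 2 + 1) * 2, by positivity, ?_⟩
  intro M N Ξ Ξ' _ _ _ ch ch' hch hch' hN hM hΞ hΞ'
  have hN1 : (1 : ℝ) ≤ N := by exact_mod_cast hN
  have hlog : 0 ≤ Real.log N := Real.log_nonneg hN1
  have hq : 0 < 128 * (Real.log N + 1) / η ^ 2 := by positivity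
  obtain ⟨n, n0, n1, n2⟩ : ∃ n : ℕ, 0 < n ∧ 128 * (Real.log N + 1) / η ^ 2 ≤ n ∧
      (n : ℝ) < 128 * (Real.log N + 1) / η ^ 2 + 1 :=
    ⟨_, Nat.ceil_pos.2 hq, Nat.le_ceil _, Nat.ceil_lt_add_one hq.le⟩
  have n3 : (0 : ℝ) < n := by exact_mod_cast n0
  have hat : ∀ a e (x : Option (Fin M × Ξ' × Fin 4)), ‖atm ch ch' a e x‖ ≤ 1 := by
    rintro a e (_ | x)
    · simp [atm]
    · simp only [atm, norm_mul, un_norm, one_mul]
      exact mul_le_one₀ (hch _ _) (norm_nonneg _) (hch' _ _)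
  let Qf : (Fin n → Option (Fin M × Ξ' × Fin 4)) → ℕ → ℝ := fun t e =>
    ⨆ a, ‖(n : ℂ)⁻¹ * ∑ j, atm ch ch' a e (t j)‖
  have hexp : ((N : ℝ)) ^ 2 = Real.exp (2 * Real.log N) := by
    rw [show (2 : ℝ) * Real.log N = Real.log N + Real.log N by ring, Real.exp_add,
      Real.exp_log (by linarith), sq]
  refine ⟨Finset.univ.image fun t e => (Qf t e : ℂ), ?_, ?_, ?_⟩
  · intro c hc e
    obtain ⟨t, -, rfl⟩ := Finset.mem_image.1 hc
    have h0 : 0 ≤ Qf t e := Real.iSup_nonneg fun a => norm_nonneg _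
    rw [Complex.norm_real, Real.norm_of_nonneg h0]
    refine ciSup_le fun a => ?_
    rw [norm_mul, norm_inv, Complex.norm_natCast, inv_mul_le_iff₀ n3, mul_one]
    refine (norm_sum_le _ _).trans ((Finset.sum_le_sum fun j _ => hat a e (t j)).trans ?_)
    simp
  · have c1 : ((Finset.univ.image fun t e => (Qf t e : ℂ)).card : ℝ) ≤
        (Fintype.card (Option (Fin M × Ξ' × Fin 4)) : ℝ) ^ n := by
      have := Finset.card_image_le (s := Finset.univ) (f := fun t e => (Qf t e : ℂ))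
      rw [Finset.card_univ, Fintype.card_fun, Fintype.card_fin] at this
      exact_mod_cast this
    have c2 : (Fintype.card (Option (Fin M × Ξ' × Fin 4)) : ℝ) ≤
        Real.exp (2 * (Real.log N + 1)) := by
      rw [Fintype.card_option, Fintype.card_prod, Fintype.card_prod, Fintype.card_fin,
        Fintype.card_fin, mul_add, Real.exp_add, ← hexp]
      have m1 : (M : ℝ) ≤ N := by exact_mod_cast hM
      have m2 : (Fintype.card Ξ' : ℝ) ≤ N := by exact_mod_cast hΞ'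
      have m3 : (M : ℝ) * Fintype.card Ξ' ≤ N * N :=
        mul_le_mul m1 m2 (Nat.cast_nonneg _) (by linarith)
      have h2 : (5 : ℝ) ≤ Real.exp (2 * 1) := by
        have := Real.add_one_le_exp (2 / 3 : ℝ)
        have e3 : Real.exp (2 * 1) = Real.exp (2 / 3) ^ 3 := by
          rw [← Real.exp_nat_mul]; norm_num
        rw [e3]
        have h4 := pow_le_pow_left₀ (by norm_num) Real.exp_one_gt_d9.le 2
        rw [← e3, show (2 : ℝ) * 1 = ((2 : ℕ) : ℝ) * 1 by norm_num, Real.exp_nat_mul]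
        linarith
      push_cast
      nlinarith
    refine c1.trans ((pow_le_pow_left₀ (Nat.cast_nonneg _) c2 n).trans ?_)
    rw [← Real.exp_nat_mul]
    refine Real.exp_le_exp.2 ?_
    have n4 : (n : ℝ) ≤ (128 / η ^ 2 + 1) * (Real.log N + 1) := by
      rw [add_mul, div_mul_eq_mul_div]
      linarith
    nlinarith
  · intro lam c hl0 hl1 hc
    let w : Fin M × Ξ' × Fin 4 → ℝ := fun x => lam x.1 * pa (c x.1 x.2.1) x.2.2 / (2 * A)
    have w0 : ∀ x, 0 ≤ w x := fun x =>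
      div_nonneg (mul_nonneg (hl0 _) (pa_nonneg _ _)) (by positivity)
    have w1 : ∑ x, w x ≤ 1 := by
      simp only [w, Fintype.sum_prod_type]
      refine le_trans (Finset.sum_le_sum (g := fun d : Fin M => lam d) fun d _ => ?_) ?_
      · simp only [← Finset.sum_div, ← Finset.mul_sum]
        rw [div_le_iff₀ (by positivity)]
        refine mul_le_mul_of_nonneg_left ?_ (hl0 _)
        refine (Finset.sum_le_sum fun ξ _ => pa_sum _).trans ?_
        rw [← Finset.mul_sum]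
        linarith [hc d]
      · rwa [Fin.sum_univ_eq_sum_range (fun d => lam d) M]
    let π : Option (Fin M × Ξ' × Fin 4) → ℝ := fun x => x.elim (1 - ∑ x, w x) w
    obtain ⟨t, -, ht⟩ := samp (P := Ξ × Fin M) π
      (by rintro (_ | x)
          · simp only [π, Option.elim]; linarith
          · exact w0 x)
      (by rw [Fintype.sum_option]; simp only [π, Option.elim]; ring)
      (fun p => atm ch ch' p.1 p.2) (fun p => hat _ _) (L := 2 * Real.log N) η0 η1
      (by rw [← hexp, Fintype.card_prod, Fintype.card_fin, sq]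
          push_cast
          exact mul_le_mul (by exact_mod_cast hΞ) (by exact_mod_cast hM) (Nat.cast_nonneg _)
            (by linarith)) n n0
      (by rw [div_le_iff₀ (by positivity)] at n1; linarith)
    refine ⟨Qf t, Finset.mem_image.2 ⟨t, Finset.mem_univ _, rfl⟩, fun e he => ?_⟩
    have hA' : (A : ℂ) ≠ 0 := by exact_mod_cast hA.ne'
    have e1 : ∀ a, ∑ d ∈ Finset.range M, (lam d : ℂ) * (ch a d * ∑ ξ, c d ξ * ch' ξ e) =
        ((2 * A : ℝ) : ℂ) * ∑ x, (π x : ℂ) * atm ch ch' a e x := by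
      intro a
      rw [Fintype.sum_option, ← Fin.sum_univ_eq_sum_range
        (fun d => (lam d : ℂ) * (ch a d * ∑ ξ, c d ξ * ch' ξ e)) M]
      simp only [atm, mul_zero, zero_add, π, Option.elim, w, Fintype.sum_prod_type, Finset.mul_sum]
      refine Finset.sum_congr rfl fun d _ => Finset.sum_congr rfl fun ξ _ => ?_
      conv_lhs => rw [← pa_un (c d ξ)]
      simp only [Finset.mul_sum, Finset.sum_mul]
      refine Finset.sum_congr rfl fun k _ => ?_
      push_cast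
      field_simp
    have e2 : 2 * A * Qf t e =
        ⨆ a, ‖((2 * A : ℝ) : ℂ) * ((n : ℂ)⁻¹ * ∑ j, atm ch ch' a e (t j))‖ := by
      simp only [Qf]
      rw [Real.mul_iSup_of_nonneg (by positivity)]
      refine iSup_congr fun a => ?_
      rw [norm_mul ((2 * A : ℝ) : ℂ), Complex.norm_real, Real.norm_of_nonneg (by positivity)]
    rw [e2]
    refine sup_close _ _ fun a => ?_
    rw [e1, ← mul_sub, norm_mul, Complex.norm_real, Real.norm_of_nonneg (by positivity),
      norm_sub_rev]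
    exact (mul_le_mul_of_nonneg_left (ht (a, ⟨e, he⟩)) (by positivity)).trans η2

end Pool.Agent.MP_154433_an.Mau

end
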