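import Pool.Agent.MP_154433_an.h31.Vdc

/-! The bound for a double twist at one scale. -/

set_option autoImplicit false

open MeasureTheory
open scoped BigOperators ComplexConjugate
open Finset

noncomputable section

namespace Pool.Agent.MP_154433_an.Mau

variable {X Γ : Type} [MeasurableSpace X] [AddCommGroup Γ] {μ : Measure X}
  [IsProbabilityMeasure μ] {A : Γ → X → X}
  {Ξ : Type} [Fintype Ξ] [Nonempty Ξ] {ch : Ξ → ℕ → ℂ} {M : ℕ}

omit [Nonempty Ξ] in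
lemma mx_meas (lam : ℕ → ℝ) {F : ℕ → X → ℂ} (hF : ∀ d, Measurable (F d)) :
    Measurable fun x => mx ch M lam fun d => F d x :=
  Measurable.iSup fun _ => (Finset.measurable_sum _ fun d _ =>
    ((hF d).const_mul _).const_mul _).norm

lemma int_bd {f : X → ℝ} (hf : Measurable f) (K : ℝ) (h : ∀ x, ‖f x‖ ≤ K) : Integrable f μ :=
  Integrable.of_bound hf.aestronglyMeasurable K (Filter.Eventually.of_forall h)

lemma int_bdC {f : X → ℂ} (hf : Measurable f) (K : ℝ) (h : ∀ x, ‖f x‖ ≤ K) : Integrable f μ :=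
  Integrable.of_bound hf.aestronglyMeasurable K (Filter.Eventually.of_forall h)

lemma mx_int (hch : ∀ a d, ‖ch a d‖ ≤ 1) (lam : ℕ → ℝ) {F : ℕ → X → ℂ}
    (hF : ∀ d, Measurable (F d)) (hb : ∀ d x, ‖F d x‖ ≤ 1) :
    Integrable (fun x => mx ch M lam fun d => F d x) μ := by
  refine int_bd (mx_meas lam hF) (∑ d ∈ range M, |lam d|) fun x => ?_
  rw [Real.norm_of_nonneg (mx_nonneg _)]
  exact (mx_le hch _).trans (sum_le_sum fun d _ => mul_le_of_le_one_right (abs_nonneg _) (hb d x))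

omit [AddCommGroup Γ] [IsProbabilityMeasure μ] in
lemma int_sh (hmp : ∀ v, MeasurePreserving (A v) μ μ) {E : Type} [NormedAddCommGroup E]
    [NormedSpace ℝ E] {h : X → E} (hh : AEStronglyMeasurable h μ) (v : Γ) :
    ∫ x, h (A v x) ∂μ = ∫ x, h x ∂μ := by
  rw [← integral_map (hmp v).measurable.aemeasurable (by rwa [(hmp v).map_eq]), (hmp v).map_eq]

omit [AddCommGroup Γ] [IsProbabilityMeasure μ] in
lemma int_one (hmp : ∀ v, MeasurePreserving (A v) μ μ) {h : X → ℝ} (hh : Integrable h μ)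
    (h0 : ∀ x, 0 ≤ h x) (p : ℕ → ℝ) (p1 : ∑ d ∈ range M, p d ≤ 1) (v : ℕ → Γ) :
    Integrable (fun x => ∑ d ∈ range M, p d * h (A (v d) x)) μ ∧
      ∫ x, ∑ d ∈ range M, p d * h (A (v d) x) ∂μ ≤ ∫ x, h x ∂μ := by
  have hi : ∀ d ∈ range M, Integrable (fun x => p d * h (A (v d) x)) μ := fun d _ =>
    ((hmp _).integrable_comp_of_integrable hh).const_mul _
  refine ⟨integrable_finsetSum _ hi, ?_⟩
  rw [integral_finsetSum _ hi]
  simp only [integral_const_mul, int_sh hmp hh.1]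
  rw [← sum_mul]
  exact mul_le_of_le_one_left (integral_nonneg h0) p1

omit [AddCommGroup Γ] [IsProbabilityMeasure μ] in
lemma int_two (hmp : ∀ v, MeasurePreserving (A v) μ μ) {h : X → ℝ} (hh : Integrable h μ)
    (h0 : ∀ x, 0 ≤ h x) (p q : ℕ → ℝ) (p0 : ∀ d, 0 ≤ p d) (p1 : ∑ d ∈ range M, p d ≤ 1)
    (q1 : ∑ d ∈ range M, q d ≤ 1) (v : ℕ → ℕ → Γ) :
    Integrable (fun x => ∑ e ∈ range M, p e * ∑ d ∈ range M, q d * h (A (v d e) x)) μ ∧
      ∫ x, ∑ e ∈ range M, p e * ∑ d ∈ range M, q d * h (A (v d e) x) ∂μ ≤ ∫ x, h x ∂μ := by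
  have hi : ∀ e ∈ range M, Integrable (fun x => p e * ∑ d ∈ range M, q d * h (A (v d e) x)) μ :=
    fun e _ => (int_one hmp hh h0 q q1 fun d => v d e).1.const_mul _
  refine ⟨integrable_finsetSum _ hi, ?_⟩
  rw [integral_finsetSum _ hi]
  simp only [integral_const_mul]
  refine (sum_le_sum fun e _ => mul_le_mul_of_nonneg_left
    (int_one hmp hh h0 q q1 fun d => v d e).2 (p0 e)).trans ?_
  rw [← sum_mul]
  exact mul_le_of_le_one_left (integral_nonneg h0) p1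

/-- the square of the average after the shift -/
lemma sq_shift (hmp : ∀ v, MeasurePreserving (A v) μ μ)
    (hadd : ∀ v w x, A (v + w) x = A v (A w x)) (a b : Γ) {W D : X → ℂ} (mW : Measurable W)
    (mD : Measurable D) (bW : ∀ x, ‖W x‖ ≤ 1) (bD : ∀ x, ‖D x‖ ≤ 1) (ν : ℕ → ℝ)
    (ν0 : ∀ d, 0 ≤ ν d) :
    ∫ x, ‖∑ d ∈ range M, (ν d : ℂ) * (W (A ((d : ℤ) • a) x) * D (A ((d : ℤ) • b) x))‖ ^ 2 ∂μ ≤
      ∫ x, ∑ e ∈ range M, ν e * ‖∑ d ∈ range M, (ν d : ℂ) *
        (D (A (-((d : ℤ) • (a - b))) (A (-((e : ℤ) • a)) x)) *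
          (conj (W (A (-((d : ℤ) • a)) x)) *
            conj (D (A (-((e : ℤ) • (a - b))) (A (-((d : ℤ) • a)) x)))))‖ ∂μ := by
  have mA : ∀ v, Measurable (A v) := fun v => (hmp v).measurable
  have mc : Measurable (fun z : ℂ => conj z) := Complex.continuous_conj.measurable
  let F : ℕ → X → ℂ := fun d x => W (A ((d : ℤ) • a) x) * D (A ((d : ℤ) • b) x)
  let G : ℕ → ℕ → X → ℂ := fun d e x => D (A (-((d : ℤ) • (a - b))) (A (-((e : ℤ) • a)) x)) *
    (conj (W (A (-((d : ℤ) • a)) x)) * conj (D (A (-((e : ℤ) • (a - b))) (A (-((d : ℤ) • a)) x))))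
  let U : ℕ → X → ℂ := fun e x => W (A (-((e : ℤ) • a)) x)
  have mF : ∀ d, Measurable (F d) := fun d => (mW.comp (mA _)).mul (mD.comp (mA _))
  have bF : ∀ d x, ‖F d x‖ ≤ 1 := fun d x => by
    rw [norm_mul]; exact mul_le_one₀ (bW _) (norm_nonneg _) (bD _)
  have mG : ∀ d e, Measurable (G d e) := fun d e => (mD.comp ((mA _).comp (mA _))).mul
    ((mc.comp (mW.comp (mA _))).mul (mc.comp (mD.comp ((mA _).comp (mA _)))))
  have bG : ∀ d e x, ‖G d e x‖ ≤ 1 := fun d e x => by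
    simp only [G, norm_mul, Complex.norm_conj]
    exact mul_le_one₀ (bD _) (by positivity) (mul_le_one₀ (bW _) (norm_nonneg _) (bD _))
  have mU : ∀ e, Measurable (U e) := fun e => mW.comp (mA _)
  have iF : ∀ d e, Integrable (fun x => F d x * conj (F e x)) μ := fun d e =>
    int_bdC ((mF d).mul (mc.comp (mF e))) 1 fun x => by
      rw [norm_mul, Complex.norm_conj]; exact mul_le_one₀ (bF _ _) (norm_nonneg _) (bF _ _)
  have iG : ∀ d e, Integrable (fun x => U e x * G d e x) μ := fun d e =>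
    int_bdC ((mU e).mul (mG d e)) 1 fun x => by
      rw [norm_mul]; exact mul_le_one₀ (bW _) (norm_nonneg _) (bG _ _ _)
  have e1 : ∀ d e : ℕ, ∫ x, F d x * conj (F e x) ∂μ = ∫ x, U e x * G d e x ∂μ := fun d e => by
    rw [← int_sh hmp (iF d e).1 (-((d : ℤ) • a) - (e : ℤ) • a)]
    refine integral_congr_ae (Filter.Eventually.of_forall fun x => ?_)
    simp only [F, G, U, ← hadd, map_mul]
    rw [show (d : ℤ) • a + (-((d : ℤ) • a) - (e : ℤ) • a) = -((e : ℤ) • a) by abel,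
      show (d : ℤ) • b + (-((d : ℤ) • a) - (e : ℤ) • a) =
        -((d : ℤ) • (a - b)) + -((e : ℤ) • a) by rw [smul_sub]; abel,
      show (e : ℤ) • a + (-((d : ℤ) • a) - (e : ℤ) • a) = -((d : ℤ) • a) by abel,
      show (e : ℤ) • b + (-((d : ℤ) • a) - (e : ℤ) • a) =
        -((e : ℤ) • (a - b)) + -((d : ℤ) • a) by rw [smul_sub]; abel]
    ring
  have e2 : ((∫ x, ‖∑ d ∈ range M, (ν d : ℂ) * F d x‖ ^ 2 ∂μ : ℝ) : ℂ) =
      ∫ x, ∑ e ∈ range M, (ν e : ℂ) * (U e x * ∑ d ∈ range M, (ν d : ℂ) * G d e x) ∂μ := by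
    rw [← integral_complex_ofReal]
    have l1 : ∀ x, ((‖∑ d ∈ range M, (ν d : ℂ) * F d x‖ ^ 2 : ℝ) : ℂ) =
        ∑ e ∈ range M, ∑ d ∈ range M, (ν e : ℂ) * (ν d : ℂ) * (F d x * conj (F e x)) := by
      intro x
      push_cast
      rw [← Complex.mul_conj', map_sum, sum_mul_sum, sum_comm]
      refine sum_congr rfl fun e _ => sum_congr rfl fun d _ => ?_
      rw [map_mul, Complex.conj_ofReal]
      ring
    have l2 : ∀ x, ∑ e ∈ range M, (ν e : ℂ) * (U e x * ∑ d ∈ range M, (ν d : ℂ) * G d e x) =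
        ∑ e ∈ range M, ∑ d ∈ range M, (ν e : ℂ) * (ν d : ℂ) * (U e x * G d e x) := by
      intro x
      simp only [mul_sum]
      exact sum_congr rfl fun e _ => sum_congr rfl fun d _ => by ring
    simp only [l1, l2]
    rw [integral_finsetSum _ fun e _ => integrable_finsetSum _ fun d _ => (iF d e).const_mul _,
      integral_finsetSum _ fun e _ => integrable_finsetSum _ fun d _ => (iG d e).const_mul _]
    refine sum_congr rfl fun e _ => ?_
    rw [integral_finsetSum _ fun d _ => (iF d e).const_mul _,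
      integral_finsetSum _ fun d _ => (iG d e).const_mul _]
    simp only [integral_const_mul, e1]
  refine (le_abs_self _).trans ?_
  rw [← Real.norm_eq_abs, ← Complex.norm_real, e2]
  refine norm_integral_le_of_norm_le (integrable_finsetSum _ fun e _ => Integrable.const_mul
    (Integrable.norm (integrable_finsetSum _ fun d _ =>
      (int_bdC (mG d e) 1 (bG d e)).const_mul _)) _) (Filter.Eventually.of_forall fun x => ?_)
  refine (norm_sum_le _ _).trans (sum_le_sum fun e _ => ?_)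
  rw [norm_mul, norm_mul, Complex.norm_real, Real.norm_of_nonneg (ν0 e)]
  exact mul_le_mul_of_nonneg_left (mul_le_of_le_one_left (norm_nonneg _) (bW _)) (ν0 e)

/-- orbit segments of `f` in the direction `u` are absolutely summable series -/
def Wie (A : Γ → X → X) (ch : Ξ → ℕ → ℂ) (M : ℕ) (u : Γ) (K : ℝ) (f : X → ℂ) : Prop :=
  ∀ x, ∃ c : Ξ → ℂ, ∑ ξ, ‖c ξ‖ ≤ K ∧ ∀ d < M, f (A ((d : ℤ) • u) x) = ∑ ξ, c ξ * ch ξ d

theorem tw_fix (hmp : ∀ v, MeasurePreserving (A v) μ μ)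
    (hadd : ∀ v w x, A (v + w) x = A v (A w x)) (a b : Γ) {W D D1 D2 : X → ℂ}
    (mW : Measurable W) (mD : Measurable D) (bW : ∀ x, ‖W x‖ ≤ 1) (bD : ∀ x, ‖D x‖ ≤ 1)
    (hcl : ∀ ξ ξ', ∃ ζ, ∀ d, ch ξ d * conj (ch ξ' d) = ch ζ d) (hch : ∀ ξ d, ‖ch ξ d‖ ≤ 1)
    (ν ρ : ℕ → ℝ) (ν0 : ∀ d, 0 ≤ ν d) (ν1 : ∑ d ∈ range M, ν d ≤ 1) (ρ0 : ∀ d, 0 ≤ ρ d)
    (ρ1 : ∑ d ∈ range M, ρ d ≤ 1) {K1 K2 η1 η2 τ κ t : ℝ} {I : ℕ} (hK : 0 ≤ K1) (hI : 1 ≤ I)
    (ht : 0 < t) (i1 : Integrable D1 μ) (i2 : Integrable D2 μ)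
    (c1 : ∫ x, ‖D x - D1 x‖ ∂μ ≤ η1) (c2 : ∫ x, ‖D x - D2 x‖ ∂μ ≤ η2)
    (w1 : Wie A ch M (b - a) K1 D1) (w2 : Wie A ch M (b - a) K2 D2)
    (hnet : ∀ c : ℕ → Ξ → ℂ, (∀ d, ∑ ξ, ‖c d ξ‖ ≤ K2) →
      |∑ e ∈ range M, (ν e - ρ e) * mx ch M ν fun d => ∑ ξ, c d ξ * conj (ch ξ e)| ≤ τ)
    (hκ : ∀ i < I, ∀ u : ℕ → ℝ, (∀ e, ‖u e‖ ≤ 1) →
      ‖∑ e ∈ range M, ρ e • (u (e + i) - u e)‖ ≤ κ) :
    ∫ x, ‖∑ d ∈ range M, (ν d : ℂ) * (W (A ((d : ℤ) • a) x) * D (A ((d : ℤ) • b) x))‖ ^ 2 ∂μ ≤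
      η1 + K1 * (2 * η2 + τ + κ + t / 2 + (2 * t)⁻¹ * ((I : ℝ)⁻¹ * (I : ℝ)⁻¹ *
        ∑ i ∈ range I, ∑ i' ∈ range I, ∫ x, mx ch M ν (fun d =>
          conj (D (A ((i : ℤ) • (b - a)) (A ((d : ℤ) • (-a)) x))) *
            D (A ((i' : ℤ) • (b - a)) (A ((d : ℤ) • (-a)) x))) ∂μ)) := by
  have mA : ∀ v, Measurable (A v) := fun v => (hmp v).measurable
  have mc : Measurable (fun z : ℂ => conj z) := Complex.continuous_conj.measurable
  have n1 : ∀ d : ℤ, -(d • (a - b)) = d • (b - a) := fun d => by rw [← smul_neg, neg_sub]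
  have n2 : ∀ d : ℤ, -(d • a) = d • (-a) := fun d => by rw [smul_neg]
  refine (sq_shift hmp hadd a b mW mD bW bD ν ν0).trans ?_
  simp only [n1, n2]
  have iD : Integrable D μ := int_bdC mD 1 bD
  obtain ⟨j1, k1⟩ := int_two hmp (iD.sub i1).norm (fun _ => norm_nonneg _) ν ν ν0 ν1 ν1
    fun d e => (d : ℤ) • (b - a) + (e : ℤ) • (-a)
  obtain ⟨j2, k2⟩ := int_two hmp (iD.sub i2).norm (fun _ => norm_nonneg _) ν ν ν0 ν1 ν1
    fun d e => (e : ℤ) • (b - a) + (d : ℤ) • (-a)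
  obtain ⟨j3, k3⟩ := int_two hmp (iD.sub i2).norm (fun _ => norm_nonneg _) ρ ν ρ0 ρ1 ν1
    fun d e => (e : ℤ) • (b - a) + (d : ℤ) • (-a)
  let H : ℕ → ℕ → X → ℝ := fun i i' x => mx ch M ν fun d =>
    conj (D (A ((i : ℤ) • (b - a)) (A ((d : ℤ) • (-a)) x))) *
      D (A ((i' : ℤ) • (b - a)) (A ((d : ℤ) • (-a)) x))
  have iH : ∀ i i', Integrable (H i i') μ := fun i i' => mx_int hch ν
    (fun d => (mc.comp (mD.comp ((mA _).comp (mA _)))).mul (mD.comp ((mA _).comp (mA _))))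
    fun d x => by
      rw [norm_mul, Complex.norm_conj]; exact mul_le_one₀ (bD _) (norm_nonneg _) (bD _)
  have k4 := fun i i' => int_one (M := M) hmp (iH i i') (fun _ => mx_nonneg _) ρ ρ1
    fun e => (e : ℤ) • (b - a)
  have j4 : Integrable (fun x => ∑ i ∈ range I, ∑ i' ∈ range I, ∑ e ∈ range M,
      ρ e * H i i' (A ((e : ℤ) • (b - a)) x)) μ :=
    integrable_finsetSum _ fun i _ => integrable_finsetSum _ fun i' _ => (k4 i i').1
  have k5 : ∫ x, ∑ i ∈ range I, ∑ i' ∈ range I, ∑ e ∈ range M,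
      ρ e * H i i' (A ((e : ℤ) • (b - a)) x) ∂μ ≤
      ∑ i ∈ range I, ∑ i' ∈ range I, ∫ x, H i i' x ∂μ := by
    rw [integral_finsetSum _ fun i _ => integrable_finsetSum _ fun i' _ => (k4 i i').1]
    refine sum_le_sum fun i _ => ?_
    rw [integral_finsetSum _ fun i' _ => (k4 i i').1]
    exact sum_le_sum fun i' _ => (k4 i i').2
  simp only [Pi.sub_apply] at j1 j2 j3 k1 k2 k3
  have jj := j1.add ((((j2.add j3).add (integrable_const (τ + κ + t / 2))).add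
    (j4.const_mul ((2 * t)⁻¹ * ((I : ℝ)⁻¹ * (I : ℝ)⁻¹)))).const_mul K1)
  refine (integral_mono_of_nonneg (Filter.Eventually.of_forall fun x =>
    sum_nonneg fun e _ => mul_nonneg (ν0 e) (norm_nonneg _)) jj
    (Filter.Eventually.of_forall fun x => ?_)).trans ?_
  · simp only [Pi.add_apply, hadd]
    let Wd : ℕ → ℂ := fun d => conj (W (A ((d : ℤ) • (-a)) x))
    let B : ℕ → ℕ → ℂ := fun d e => conj (D (A ((e : ℤ) • (b - a)) (A ((d : ℤ) • (-a)) x)))
    let B2 : ℕ → ℕ → ℂ := fun d e => conj (D2 (A ((e : ℤ) • (b - a)) (A ((d : ℤ) • (-a)) x)))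
    have bWd : ∀ d, ‖Wd d‖ ≤ 1 := fun d => by rw [Complex.norm_conj]; exact bW _
    have bB : ∀ d e, ‖B d e‖ ≤ 1 := fun d e => by rw [Complex.norm_conj]; exact bD _
    have s1 : ∀ e : ℕ, ‖∑ d ∈ range M, (ν d : ℂ) *
        (D (A ((d : ℤ) • (b - a)) (A ((e : ℤ) • (-a)) x)) * (Wd d * B d e))‖ ≤
        ∑ d ∈ range M, ν d * ‖D (A ((d : ℤ) • (b - a)) (A ((e : ℤ) • (-a)) x)) -
          D1 (A ((d : ℤ) • (b - a)) (A ((e : ℤ) • (-a)) x))‖ +
        K1 * mx ch M ν fun d => Wd d * B d e := fun e => by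
      obtain ⟨c, hc1, hc2⟩ := w1 (A ((e : ℤ) • (-a)) x)
      refine le_trans ?_ (add_le_add le_rfl (wie_le c hc1 _ _ hc2))
      rw [← sub_le_iff_le_add]
      refine (norm_sub_norm_le _ _).trans ?_
      rw [← sum_sub_distrib]
      refine (norm_sum_le _ _).trans (sum_le_sum fun d _ => ?_)
      rw [← mul_sub, ← sub_mul, norm_mul, norm_mul, norm_mul, Complex.norm_real,
        Real.norm_of_nonneg (ν0 d)]
      exact mul_le_mul_of_nonneg_left (mul_le_of_le_one_right (norm_nonneg _)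
        (mul_le_one₀ (bWd d) (norm_nonneg _) (bB d e))) (ν0 d)
    have s2 : ∀ e : ℕ, |mx ch M ν (fun d => Wd d * B d e) - mx ch M ν fun d => Wd d * B2 d e| ≤
        ∑ d ∈ range M, ν d * ‖D (A ((e : ℤ) • (b - a)) (A ((d : ℤ) • (-a)) x)) -
          D2 (A ((e : ℤ) • (b - a)) (A ((d : ℤ) • (-a)) x))‖ := fun e => by
      refine (mx_sub hch _ _).trans (sum_le_sum fun d _ => ?_)
      rw [abs_of_nonneg (ν0 d), ← mul_sub, norm_mul, ← map_sub, Complex.norm_conj (_ - _)]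
      exact mul_le_mul_of_nonneg_left (mul_le_of_le_one_left (norm_nonneg _) (bWd d)) (ν0 d)
    have s3 : |∑ e ∈ range M, (ν e - ρ e) * mx ch M ν fun d => Wd d * B2 d e| ≤ τ := by
      choose c hc1 hc2 using fun d : ℕ => w2 (A ((d : ℤ) • (-a)) x)
      refine le_trans (le_of_eq ?_) (hnet (fun d ξ => Wd d * conj (c d ξ)) fun d => ?_)
      · congr 1
        refine sum_congr rfl fun e he => ?_
        congr 2
        funext d
        simp only [B2]
        rw [hc2 d e (mem_range.1 he), map_sum, mul_sum]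
        exact sum_congr rfl fun ξ _ => by rw [map_mul]; ring
      · refine le_trans (sum_le_sum fun ξ _ => ?_) (hc1 d)
        rw [norm_mul, Complex.norm_conj (c d ξ)]
        exact mul_le_of_le_one_left (norm_nonneg _) (bWd d)
    have s4 := vdc_mx hcl hch ν0 ν1 ρ ρ0 ρ1 hI ht hκ Wd B bWd bB
    have s5 : ∀ i i' e : ℕ, mx ch M ν (fun d => B d (e + i) * conj (B d (e + i'))) =
        H i i' (A ((e : ℤ) • (b - a)) x) := fun i i' e => by
      simp only [B, H]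
      congr 1
      funext d
      rw [Complex.conj_conj]
      simp only [← hadd]
      rw [show ((e + i : ℕ) : ℤ) • (b - a) + (d : ℤ) • (-a) =
          (i : ℤ) • (b - a) + ((d : ℤ) • (-a) + (e : ℤ) • (b - a)) by
            rw [Nat.cast_add, add_smul]; abel,
        show ((e + i' : ℕ) : ℤ) • (b - a) + (d : ℤ) • (-a) =
          (i' : ℤ) • (b - a) + ((d : ℤ) • (-a) + (e : ℤ) • (b - a)) by
            rw [Nat.cast_add, add_smul]; abel]
    simp only [s5] at s4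
    have t1 := sum_le_sum fun e (_ : e ∈ range M) => mul_le_mul_of_nonneg_left (s1 e) (ν0 e)
    have t2 := sum_le_sum fun e (_ : e ∈ range M) =>
      mul_le_mul_of_nonneg_left (abs_le.1 (s2 e)).2 (ν0 e)
    have t3 := sum_le_sum fun e (_ : e ∈ range M) =>
      mul_le_mul_of_nonneg_left (neg_le.1 (abs_le.1 (s2 e)).1) (ρ0 e)
    have t4 := (abs_le.1 s3).2
    simp only [mul_add, sum_add_distrib, mul_left_comm _ K1, ← mul_sum _ _ K1] at t1
    simp only [mul_sub, sum_sub_distrib] at t2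
    simp only [neg_sub, mul_sub, sum_sub_distrib] at t3
    simp only [sub_mul, sum_sub_distrib] at t4
    refine t1.trans (add_le_add le_rfl (mul_le_mul_of_nonneg_left ?_ hK))
    rw [mul_assoc ((2 * t)⁻¹)]
    linarith
  · rw [integral_add' j1 ((((j2.add j3).add (integrable_const _)).add (j4.const_mul _)).const_mul _),
      integral_const_mul, integral_add' ((j2.add j3).add (integrable_const _)) (j4.const_mul _),
      integral_add' (j2.add j3) (integrable_const _), integral_add' j2 j3, integral_const,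
      integral_const_mul, probReal_univ, one_smul]
    refine add_le_add (k1.trans c1) (mul_le_mul_of_nonneg_left ?_ hK)
    have k6 := mul_le_mul_of_nonneg_left k5
      (show 0 ≤ (2 * t)⁻¹ * ((I : ℝ)⁻¹ * (I : ℝ)⁻¹) by positivity)
    rw [mul_assoc ((2 * t)⁻¹) _ (∑ i ∈ range I, _)] at k6
    linarith

end Pool.Agent.MP_154433_an.Mau

end
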