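import Pool.Agent.MP_154433_an.h31.Dw

/-! The bound for a double twist at one scale, window form. -/

set_option autoImplicit false
set_option linter.unusedSectionVars false

open MeasureTheory
open scoped BigOperators ComplexConjugate
open Finset

noncomputable section

namespace Pool.Agent.MP_154433_an.Mau

variable {X Γ : Type} [MeasurableSpace X] [AddCommGroup Γ] {μ : Measure X}
  [IsProbabilityMeasure μ] {A : Γ → X → X}
  {Ξ : Type} [Fintype Ξ] [Nonempty Ξ] {ch : Ξ → ℕ → ℂ} {M : ℕ}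

lemma avg_int (hmp : ∀ v, MeasurePreserving (A v) μ μ) {J : Type} [Fintype J] [Nonempty J]
    (v : J → Γ) {h : X → ℝ} (hh : Integrable h μ) {c : ℝ} (hc : ∀ x, 𝔼 j, h (A (v j) x) ≤ c) :
    ∫ x, h x ∂μ ≤ c := by
  have hi : ∀ j ∈ (univ : Finset J), Integrable (fun x => h (A (v j) x)) μ := fun j _ =>
    (hmp _).integrable_comp_of_integrable hh
  have c0 : (0 : ℝ) < Fintype.card J := by exact_mod_cast Fintype.card_pos
  have h1 : ∫ x, ∑ j, h (A (v j) x) ∂μ ≤ ∫ _x, c * Fintype.card J ∂μ :=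
    integral_mono (integrable_finsetSum _ hi) (integrable_const _) fun x => by
      have := hc x
      rwa [expect_eq_sum_div_card, card_univ, div_le_iff₀ c0] at this
  rw [integral_finsetSum _ hi, integral_const, probReal_univ, one_smul] at h1
  simp only [int_sh hmp hh.1, sum_const, card_univ, nsmul_eq_mul] at h1
  rw [mul_comm] at h1
  exact le_of_mul_le_mul_right h1 c0

lemma nm {K : ℝ} (hK : 0 ≤ K) (z : ℂ) : ‖(K : ℂ) * z‖ = K * ‖z‖ := by
  rw [norm_mul, Complex.norm_real, Real.norm_of_nonneg hK]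

lemma b1m {x y : ℂ} (hx : ‖x‖ ≤ 1) (hy : ‖y‖ ≤ 1) : ‖x * y‖ ≤ 1 :=
  (norm_mul_le _ _).trans (mul_le_one₀ hx (norm_nonneg _) hy)

lemma mx_smul {lam : ℕ → ℝ} {K : ℝ} (hK : 0 ≤ K) (F : ℕ → ℂ) :
    mx ch M lam (fun d => (K : ℂ) * F d) = K * mx ch M lam F := by
  simp only [mx]
  rw [Real.mul_iSup_of_nonneg hK]
  refine iSup_congr fun a => ?_
  rw [← nm hK, mul_sum]
  congr 1
  exact sum_congr rfl fun d _ => by ring

theorem tw_win (hmp : ∀ v, MeasurePreserving (A v) μ μ)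
    (hadd : ∀ v w x, A (v + w) x = A v (A w x)) (a b : Γ) {W D v1 v2 : X → ℂ}
    (mW : Measurable W) (mD : Measurable D) (bW : ∀ x, ‖W x‖ ≤ 1) (bD : ∀ x, ‖D x‖ ≤ 1)
    (m1 : Measurable v1) (m2 : Measurable v2) (b1 : ∀ x, ‖v1 x‖ ≤ 1) (b2 : ∀ x, ‖v2 x‖ ≤ 1)
    (hcl : ∀ ξ ξ', ∃ ζ, ∀ d, ch ξ d * conj (ch ξ' d) = ch ζ d) (hch : ∀ ξ d, ‖ch ξ d‖ ≤ 1)
    (hM : 1 ≤ M) (ν ρ : ℕ → ℝ) (ν0 : ∀ d, 0 ≤ ν d) (ν1 : ∑ d ∈ range M, ν d ≤ 1)
    (ρ0 : ∀ d, 0 ≤ ρ d) (ρ1 : ∑ d ∈ range M, ρ d ≤ 1) {K1 K2 B0 η0 η1 η2 τ κ t : ℝ} {I : ℕ}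
    (hK1 : 0 ≤ K1) (hK2 : 0 ≤ K2) (hB : 0 ≤ B0) (hI : 1 ≤ I) (ht : 0 < t)
    (c1 : ∫ x, ‖D x - K1 * v1 x‖ ∂μ ≤ η1) (c2 : ∫ x, ‖conj (D x) - K2 * v2 x‖ ∂μ ≤ η2)
    (w1 : ∀ (x : X) (β : Fin M → ℕ → ℂ), (∀ j d, ‖β j d‖ ≤ 1) →
      𝔼 j : Fin M, ‖∑ d ∈ range M,
        (ν d : ℂ) * (v1 (A ((((j : ℕ) + d : ℕ) : ℤ) • (b - a)) x) * β j d)‖ ≤
        η0 + B0 * 𝔼 j : Fin M, mx ch M ν (β j))
    (w2 : ∀ (x : ℕ → X) (U : ℕ → ℕ → ℂ), (∀ j d, ‖U j d‖ ≤ 1) →
      𝔼 j : Fin M, |∑ e ∈ range M, (ν e - ρ e) * mx ch M ν fun d =>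
        U j d * v2 (A ((((j : ℕ) + e : ℕ) : ℤ) • (b - a)) (x d))| ≤ τ)
    (hκ : ∀ i < I, ∀ u : ℕ → ℝ, (∀ e, ‖u e‖ ≤ 1) →
      ‖∑ e ∈ range M, ρ e • (u (e + i) - u e)‖ ≤ κ) :
    ∫ x, ‖∑ d ∈ range M, (ν d : ℂ) * (W (A ((d : ℤ) • a) x) * D (A ((d : ℤ) • b) x))‖ ^ 2 ∂μ ≤
      η1 + K1 * (η0 + B0 * (2 * η2 + K2 * τ + κ + t / 2 + (2 * t)⁻¹ * ((I : ℝ)⁻¹ * (I : ℝ)⁻¹ *
        ∑ i ∈ range I, ∑ i' ∈ range I, ∫ x, mx ch M ν (fun d =>
          conj (D (A ((i : ℤ) • (b - a)) (A ((d : ℤ) • (-a)) x))) *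
            D (A ((i' : ℤ) • (b - a)) (A ((d : ℤ) • (-a)) x))) ∂μ))) := by
  have : Nonempty (Fin M) := ⟨⟨0, hM⟩⟩
  have mA : ∀ v, Measurable (A v) := fun v => (hmp v).measurable
  have mc : Measurable (fun z : ℂ => conj z) := Complex.continuous_conj.measurable
  have n1 : ∀ d : ℤ, -(d • (a - b)) = d • (b - a) := fun d => by rw [← smul_neg, neg_sub]
  have n2 : ∀ d : ℤ, -(d • a) = d • (-a) := fun d => by rw [smul_neg]
  refine (sq_shift hmp hadd a b mW mD bW bD ν ν0).trans ?_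
  simp only [n1, n2]
  generalize b - a = s at *
  generalize -a = r at *
  have sh : ∀ (j e d : ℕ) (x : X), A ((e : ℤ) • s) (A ((d : ℤ) • r) (A ((j : ℤ) • s) x)) =
      A (((j + e : ℕ) : ℤ) • s) (A ((d : ℤ) • r) x) := fun j e d x => by
    simp only [← hadd]
    congr 1
    rw [Nat.cast_add, add_smul]
    abel
  have i1 : Integrable (fun x => ‖D x - K1 * v1 x‖) μ :=
    ((int_bdC mD 1 bD).sub ((int_bdC m1 1 b1).const_mul _)).norm
  have i2 : Integrable (fun x => ‖conj (D x) - K2 * v2 x‖) μ :=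
    ((int_bdC (mc.comp mD) 1 fun x => (Complex.norm_conj _).le.trans (bD x)).sub
      ((int_bdC m2 1 b2).const_mul _)).norm
  obtain ⟨j1, k1⟩ := int_two hmp i1 (fun _ => norm_nonneg _) ν ν ν0 ν1 ν1
    fun d e => (d : ℤ) • s + (e : ℤ) • r
  obtain ⟨j2, k2⟩ := int_two hmp i2 (fun _ => norm_nonneg _) ν ν ν0 ν1 ν1
    fun d e => (e : ℤ) • s + (d : ℤ) • r
  obtain ⟨j3, k3⟩ := int_two hmp i2 (fun _ => norm_nonneg _) ρ ν ρ0 ρ1 ν1
    fun d e => (e : ℤ) • s + (d : ℤ) • r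
  let H : ℕ → ℕ → X → ℝ := fun i i' x => mx ch M ν fun d =>
    conj (D (A ((i : ℤ) • s) (A ((d : ℤ) • r) x))) * D (A ((i' : ℤ) • s) (A ((d : ℤ) • r) x))
  have iH : ∀ i i', Integrable (H i i') μ := fun i i' => mx_int hch ν
    (fun d => (mc.comp (mD.comp ((mA _).comp (mA _)))).mul (mD.comp ((mA _).comp (mA _))))
    fun d x => by
      rw [norm_mul, Complex.norm_conj]; exact mul_le_one₀ (bD _) (norm_nonneg _) (bD _)
  have k4 := fun i i' => int_one (M := M) hmp (iH i i') (fun _ => mx_nonneg _) ρ ρ1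
    fun e => (e : ℤ) • s
  have j4 : Integrable (fun x => ∑ i ∈ range I, ∑ i' ∈ range I, ∑ e ∈ range M,
      ρ e * H i i' (A ((e : ℤ) • s) x)) μ :=
    integrable_finsetSum _ fun i _ => integrable_finsetSum _ fun i' _ => (k4 i i').1
  have k5 : ∫ x, ∑ i ∈ range I, ∑ i' ∈ range I, ∑ e ∈ range M,
      ρ e * H i i' (A ((e : ℤ) • s) x) ∂μ ≤
      ∑ i ∈ range I, ∑ i' ∈ range I, ∫ x, H i i' x ∂μ := by
    rw [integral_finsetSum _ fun i _ => integrable_finsetSum _ fun i' _ => (k4 i i').1]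
    refine sum_le_sum fun i _ => ?_
    rw [integral_finsetSum _ fun i' _ => (k4 i i').1]
    exact sum_le_sum fun i' _ => (k4 i i').2
  let Wd : ℕ → X → ℂ := fun d x => conj (W (A ((d : ℤ) • r) x))
  let B : ℕ → ℕ → X → ℂ := fun d e x => conj (D (A ((e : ℤ) • s) (A ((d : ℤ) • r) x)))
  let B2 : ℕ → ℕ → X → ℂ := fun d e x => v2 (A ((e : ℤ) • s) (A ((d : ℤ) • r) x))
  have bWd : ∀ d x, ‖Wd d x‖ ≤ 1 := fun d x => by rw [Complex.norm_conj]; exact bW _
  have bB : ∀ d e x, ‖B d e x‖ ≤ 1 := fun d e x => by rw [Complex.norm_conj]; exact bD _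
  have bWB : ∀ d e x, ‖Wd d x * B d e x‖ ≤ 1 := fun d e x => by
    rw [norm_mul]; exact mul_le_one₀ (bWd d x) (norm_nonneg _) (bB d e x)
  have mWd : ∀ d, Measurable (Wd d) := fun d => mc.comp (mW.comp (mA _))
  have mB : ∀ d e, Measurable (B d e) := fun d e => mc.comp (mD.comp ((mA _).comp (mA _)))
  let P : X → ℝ := fun x => ∑ e ∈ range M, ν e * ‖∑ d ∈ range M, (ν d : ℂ) *
    (v1 (A ((d : ℤ) • s) (A ((e : ℤ) • r) x)) * (Wd d x * B d e x))‖
  let Q : X → ℝ := fun x => ∑ e ∈ range M, ν e * mx ch M ν fun d => Wd d x * B d e x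
  let R : X → ℝ := fun x => |∑ e ∈ range M, (ν e - ρ e) * mx ch M ν fun d => Wd d x * B2 d e x|
  have iP : Integrable P μ := integrable_finsetSum _ fun e _ => Integrable.const_mul
    (Integrable.norm (integrable_finsetSum _ fun d _ => (int_bdC
      ((m1.comp ((mA _).comp (mA _))).mul ((mWd d).mul (mB d e))) 1 fun x =>
        b1m (b1 _) (bWB d e x)).const_mul _)) _
  have iQ : Integrable Q μ := integrable_finsetSum _ fun e _ =>
    (mx_int hch ν (fun d => (mWd d).mul (mB d e)) fun d x => bWB d e x).const_mul _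
  have iR : Integrable R μ := Integrable.abs (integrable_finsetSum _ fun e _ =>
    (mx_int hch ν (fun d => (mWd d).mul (m2.comp ((mA _).comp (mA _)))) fun d x =>
      b1m (bWd d x) (b2 _)).const_mul _)
  have kR : ∫ x, R x ∂μ ≤ τ := avg_int hmp (fun j : Fin M => ((j : ℕ) : ℤ) • s) iR fun x => by
    simp only [R, B2, sh]
    exact w2 (fun d => A ((d : ℤ) • r) x) (fun j d => Wd d (A ((j : ℤ) • s) x)) fun j d => bWd _ _
  have kP : ∫ x, P x ∂μ ≤ η0 + B0 * ∫ x, Q x ∂μ := by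
    rcases le_or_gt 0 η0 with h0 | h0
    swap
    · obtain ⟨x⟩ := nonempty_of_isProbabilityMeasure μ
      have := w1 x (fun _ _ => 0) fun _ _ => by simp
      simp [mx] at this
      linarith
    rw [← sub_le_iff_le_add, ← integral_const_mul, ← integral_sub iP (iQ.const_mul _)]
    refine avg_int hmp (fun j : Fin M => ((j : ℕ) : ℤ) • s) (iP.sub (iQ.const_mul B0)) fun x => ?_
    simp only [Pi.sub_apply, P, Q, sh, expect_sub_distrib, ← mul_expect, expect_sum_comm]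
    have k := sum_le_sum fun e (_ : e ∈ range M) => mul_le_mul_of_nonneg_left
      (w1 (A ((e : ℤ) • r) x) (fun j d => Wd d (A (((j : ℕ) : ℤ) • s) x) *
        B d e (A (((j : ℕ) : ℤ) • s) x)) fun j d => bWB _ _ _) (ν0 e)
    simp only [mul_add, sum_add_distrib, mul_left_comm _ B0, ← mul_sum _ _ B0, ← sum_mul] at k
    have := mul_le_of_le_one_left h0 ν1
    linarith
  have kQ : ∫ x, Q x ∂μ ≤ 2 * η2 + K2 * τ + κ + t / 2 + (2 * t)⁻¹ * ((I : ℝ)⁻¹ * (I : ℝ)⁻¹ *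
      ∑ i ∈ range I, ∑ i' ∈ range I, ∫ x, H i i' x ∂μ) := by
    have jj := (((j2.add j3).add (iR.const_mul K2)).add (integrable_const (κ + t / 2))).add
      (j4.const_mul ((2 * t)⁻¹ * ((I : ℝ)⁻¹ * (I : ℝ)⁻¹)))
    refine (integral_mono iQ jj fun x => ?_).trans ?_
    · simp only [Pi.add_apply, hadd, Q, R]
      have s2 : ∀ e : ℕ, |mx ch M ν (fun d => Wd d x * B d e x) -
          K2 * mx ch M ν fun d => Wd d x * B2 d e x| ≤
          ∑ d ∈ range M, ν d * ‖conj (D (A ((e : ℤ) • s) (A ((d : ℤ) • r) x))) -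
            K2 * v2 (A ((e : ℤ) • s) (A ((d : ℤ) • r) x))‖ := fun e => by
        rw [← mx_smul hK2]
        refine (mx_sub hch _ _).trans (sum_le_sum fun d _ => ?_)
        rw [abs_of_nonneg (ν0 d), mul_left_comm, ← mul_sub, norm_mul]
        exact mul_le_mul_of_nonneg_left (mul_le_of_le_one_left (norm_nonneg _) (bWd d x)) (ν0 d)
      have s4 := vdc_mx hcl hch ν0 ν1 ρ ρ0 ρ1 hI ht hκ (fun d => Wd d x) (fun d e => B d e x)
        (fun d => bWd d x) fun d e => bB d e x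
      have s5 : ∀ i i' e : ℕ, mx ch M ν (fun d => B d (e + i) x * conj (B d (e + i') x)) =
          H i i' (A ((e : ℤ) • s) x) := fun i i' e => by
        simp only [B, H, sh]
        congr 1
        funext d
        rw [Complex.conj_conj]
      simp only [s5] at s4
      have t2 := sum_le_sum fun e (_ : e ∈ range M) =>
        mul_le_mul_of_nonneg_left (abs_le.1 (s2 e)).2 (ν0 e)
      have t3 := sum_le_sum fun e (_ : e ∈ range M) =>
        mul_le_mul_of_nonneg_left (neg_le.1 (abs_le.1 (s2 e)).1) (ρ0 e)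
      have t4 := mul_le_mul_of_nonneg_left (le_abs_self
        (∑ e ∈ range M, (ν e - ρ e) * mx ch M ν fun d => Wd d x * B2 d e x)) hK2
      simp only [mul_sub, sum_sub_distrib, mul_left_comm _ K2, ← mul_sum _ _ K2] at t2
      simp only [neg_sub, mul_sub, sum_sub_distrib, mul_left_comm _ K2, ← mul_sum _ _ K2] at t3
      conv_lhs at t4 => simp only [sub_mul, sum_sub_distrib, mul_sub]
      rw [mul_assoc ((2 * t)⁻¹)]
      linarith
    · rw [integral_add' (((j2.add j3).add (iR.const_mul _)).add (integrable_const _))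
        (j4.const_mul _), integral_add' ((j2.add j3).add (iR.const_mul _)) (integrable_const _),
        integral_add' (j2.add j3) (iR.const_mul _), integral_add' j2 j3, integral_const,
        integral_const_mul, integral_const_mul, probReal_univ, one_smul]
      have k6 := mul_le_mul_of_nonneg_left k5
        (show 0 ≤ (2 * t)⁻¹ * ((I : ℝ)⁻¹ * (I : ℝ)⁻¹) by positivity)
      have k7 := mul_le_mul_of_nonneg_left kR hK2
      rw [mul_assoc ((2 * t)⁻¹) _ (∑ i ∈ range I, _)] at k6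
      linarith
  refine (integral_mono_of_nonneg (Filter.Eventually.of_forall fun x =>
    sum_nonneg fun e _ => mul_nonneg (ν0 e) (norm_nonneg _)) (j1.add (iP.const_mul K1))
    (Filter.Eventually.of_forall fun x => ?_)).trans ?_
  · simp only [Pi.add_apply, hadd, P]
    rw [mul_sum, ← sum_add_distrib]
    refine sum_le_sum fun e _ => ?_
    rw [mul_left_comm K1, ← mul_add]
    refine mul_le_mul_of_nonneg_left ?_ (ν0 e)
    rw [← nm hK1, ← sub_le_iff_le_add]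
    refine (norm_sub_norm_le _ _).trans ?_
    rw [mul_sum, ← sum_sub_distrib]
    refine (norm_sum_le _ _).trans (sum_le_sum fun d _ => ?_)
    rw [mul_left_comm (K1 : ℂ), ← mul_sub, ← mul_assoc (K1 : ℂ), ← sub_mul, norm_mul, norm_mul,
      Complex.norm_real, Real.norm_of_nonneg (ν0 d)]
    exact mul_le_mul_of_nonneg_left (mul_le_of_le_one_right (norm_nonneg _) (bWB d e x)) (ν0 d)
  · rw [integral_add' j1 (iP.const_mul _), integral_const_mul]
    exact add_le_add (k1.trans c1) (mul_le_mul_of_nonneg_left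
      (kP.trans (add_le_add le_rfl (mul_le_mul_of_nonneg_left kQ hB))) hK1)

end Pool.Agent.MP_154433_an.Mau

end
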