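import Pool.Agent.MP_154433_an.h31.Samp

/-! A van der Corput inequality for maximal functions. -/

set_option autoImplicit false

open scoped BigOperators ComplexConjugate
open Finset

noncomputable section

namespace Pool.Agent.MP_154433_an.Mau

/-- the maximal function over a finite family of twists -/
def mx {Ξ : Type} (ch : Ξ → ℕ → ℂ) (M : ℕ) (lam : ℕ → ℝ) (F : ℕ → ℂ) : ℝ :=
  ⨆ a, ‖∑ d ∈ range M, (lam d : ℂ) * (ch a d * F d)‖

section

variable {Ξ : Type} [Fintype Ξ] [Nonempty Ξ] {ch : Ξ → ℕ → ℂ} {M : ℕ} {lam : ℕ → ℝ}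

omit [Fintype Ξ] [Nonempty Ξ] in
lemma mx_nonneg (F : ℕ → ℂ) : 0 ≤ mx ch M lam F := Real.iSup_nonneg fun _ => norm_nonneg _

omit [Nonempty Ξ] in
lemma le_mx (F : ℕ → ℂ) (a : Ξ) :
    ‖∑ d ∈ range M, (lam d : ℂ) * (ch a d * F d)‖ ≤ mx ch M lam F :=
  le_ciSup (f := fun a => ‖∑ d ∈ range M, (lam d : ℂ) * (ch a d * F d)‖)
    (Set.finite_range _).bddAbove a

lemma mx_att (F : ℕ → ℂ) :
    ∃ a, mx ch M lam F = ‖∑ d ∈ range M, (lam d : ℂ) * (ch a d * F d)‖ := by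
  obtain ⟨a, ha⟩ := exists_eq_ciSup_of_finite
    (f := fun a => ‖∑ d ∈ range M, (lam d : ℂ) * (ch a d * F d)‖)
  exact ⟨a, ha.symm⟩

omit [Fintype Ξ] in
lemma mx_le (hch : ∀ a d, ‖ch a d‖ ≤ 1) (F : ℕ → ℂ) :
    mx ch M lam F ≤ ∑ d ∈ range M, |lam d| * ‖F d‖ := by
  refine ciSup_le fun a => (norm_sum_le _ _).trans (sum_le_sum fun d _ => ?_)
  rw [norm_mul, norm_mul, Complex.norm_real, Real.norm_eq_abs]
  exact mul_le_mul_of_nonneg_left (mul_le_of_le_one_left (norm_nonneg _) (hch a d)) (abs_nonneg _)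

lemma mx_sub (hch : ∀ a d, ‖ch a d‖ ≤ 1) (F F' : ℕ → ℂ) :
    |mx ch M lam F - mx ch M lam F'| ≤ ∑ d ∈ range M, |lam d| * ‖F d - F' d‖ := by
  refine sup_close _ _ fun a => ?_
  rw [← sum_sub_distrib]
  refine (norm_sum_le _ _).trans (sum_le_sum fun d _ => ?_)
  rw [← mul_sub, ← mul_sub, norm_mul, norm_mul, Complex.norm_real, Real.norm_eq_abs]
  exact mul_le_mul_of_nonneg_left (mul_le_of_le_one_left (norm_nonneg _) (hch a d)) (abs_nonneg _)

lemma mx_add (lam lam' : ℕ → ℝ) (F : ℕ → ℂ) :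
    mx ch M lam F ≤ mx ch M (fun d => lam d - lam' d) F + mx ch M lam' F := by
  refine ciSup_le fun a => le_trans ?_ (add_le_add (le_mx F a) (le_mx F a))
  refine le_trans (le_of_eq ?_) (norm_add_le _ _)
  rw [← sum_add_distrib]
  congr 1
  refine sum_congr rfl fun d _ => ?_
  push_cast
  ring

omit [Nonempty Ξ] in
/-- a sum against an absolutely summable series -/
lemma wie_le (c : Ξ → ℂ) {A : ℝ} (hc : ∑ a, ‖c a‖ ≤ A) (α F : ℕ → ℂ)
    (hα : ∀ d < M, α d = ∑ a, c a * ch a d) :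
    ‖∑ d ∈ range M, (lam d : ℂ) * (α d * F d)‖ ≤ A * mx ch M lam F := by
  have e : ∑ d ∈ range M, (lam d : ℂ) * (α d * F d) =
      ∑ a, c a * ∑ d ∈ range M, (lam d : ℂ) * (ch a d * F d) := by
    simp only [mul_sum]
    rw [sum_comm]
    refine sum_congr rfl fun d hd => ?_
    rw [hα d (mem_range.1 hd), sum_mul, mul_sum]
    exact sum_congr rfl fun a _ => by ring
  rw [e]
  refine (norm_sum_le _ _).trans (le_trans (sum_le_sum fun a _ => ?_)
    ((sum_mul univ (fun a => ‖c a‖) _).symm.le.trans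
      (mul_le_mul_of_nonneg_right hc (mx_nonneg F))))
  rw [norm_mul]
  exact mul_le_mul_of_nonneg_left (le_mx F a) (norm_nonneg _)

lemma phase (z : ℂ) : ∃ c : ℂ, ‖c‖ ≤ 1 ∧ c * z = (‖z‖ : ℝ) := by
  rcases eq_or_ne z 0 with rfl | h
  · exact ⟨0, by simp, by simp⟩
  · have h0 : (‖z‖ : ℂ) ≠ 0 := by exact_mod_cast norm_ne_zero_iff.2 h
    refine ⟨conj z / ‖z‖, ?_, ?_⟩
    · rw [norm_div, Complex.norm_conj, Complex.norm_real, norm_norm,
        div_self (norm_ne_zero_iff.2 h)]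
    · rw [div_mul_eq_mul_div, Complex.conj_mul', sq, mul_div_assoc, div_self h0, mul_one]

/-- van der Corput in the outer variable -/
theorem vdc_mx (hcl : ∀ a a', ∃ b, ∀ d, ch a d * conj (ch a' d) = ch b d)
    (hch : ∀ a d, ‖ch a d‖ ≤ 1) (hl0 : ∀ d, 0 ≤ lam d) (hl1 : ∑ d ∈ range M, lam d ≤ 1)
    (ρ : ℕ → ℝ) (hρ0 : ∀ e, 0 ≤ ρ e) (hρ1 : ∑ e ∈ range M, ρ e ≤ 1) {I : ℕ} (hI : 1 ≤ I)
    {κ t : ℝ} (ht : 0 < t)
    (hκ : ∀ i < I, ∀ u : ℕ → ℝ, (∀ e, ‖u e‖ ≤ 1) → ‖∑ e ∈ range M, ρ e • (u (e + i) - u e)‖ ≤ κ)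
    (W : ℕ → ℂ) (B : ℕ → ℕ → ℂ) (hW : ∀ d, ‖W d‖ ≤ 1) (hB : ∀ d e, ‖B d e‖ ≤ 1) :
    ∑ e ∈ range M, ρ e * mx ch M lam (fun d => W d * B d e) ≤ κ + t / 2 + (2 * t)⁻¹ *
      ((I : ℝ)⁻¹ * (I : ℝ)⁻¹ * ∑ i ∈ range I, ∑ i' ∈ range I, ∑ e ∈ range M,
        ρ e * mx ch M lam fun d => B d (e + i) * conj (B d (e + i'))) := by
  have I0 : (0 : ℝ) < I := by exact_mod_cast hI
  set q : ℕ → ℝ := fun e => mx ch M lam fun d => W d * B d e with hq
  choose a ha using fun e => mx_att (ch := ch) (M := M) (lam := lam) fun d => W d * B d e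
  choose c hc1 hc2 using fun e =>
    phase (∑ d ∈ range M, (lam d : ℂ) * (ch (a e) d * (W d * B d e)))
  have q1 : ∀ e, ‖q e‖ ≤ 1 := fun e => by
    rw [Real.norm_of_nonneg (mx_nonneg _)]
    refine (mx_le hch _).trans (le_trans (sum_le_sum fun d _ => ?_) hl1)
    rw [abs_of_nonneg (hl0 d), norm_mul]
    exact mul_le_of_le_one_right (hl0 d) (mul_le_one₀ (hW d) (norm_nonneg _) (hB d e))
  have s1 : ∑ e ∈ range M, ρ e * q e ≤
      κ + ∑ e ∈ range M, ρ e * ((I : ℝ)⁻¹ * ∑ i ∈ range I, q (e + i)) := by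
    have k : ∀ i ∈ range I, ∑ e ∈ range M, ρ e * q e ≤ κ + ∑ e ∈ range M, ρ e * q (e + i) := by
      intro i hi
      have := (abs_le.1 (hκ i (mem_range.1 hi) q q1)).1
      simp only [smul_eq_mul, mul_sub, sum_sub_distrib] at this
      linarith
    have k2 := sum_le_sum k
    rw [sum_const, card_range, nsmul_eq_mul, sum_add_distrib, sum_const, card_range, nsmul_eq_mul,
      sum_comm] at k2
    have e : ∑ e ∈ range M, ρ e * ((I : ℝ)⁻¹ * ∑ i ∈ range I, q (e + i)) =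
        (I : ℝ)⁻¹ * ∑ e ∈ range M, ∑ i ∈ range I, ρ e * q (e + i) := by
      rw [mul_sum]
      exact sum_congr rfl fun e _ => by rw [← mul_sum]; ring
    rw [e]
    refine le_of_mul_le_mul_left ?_ I0
    rw [mul_add, ← mul_assoc, mul_inv_cancel₀ I0.ne', one_mul]
    exact k2
  let z : ℕ → ℕ → ℂ := fun d e => c e * (ch (a e) d * B d e)
  let Z : ℕ → ℕ → ℂ := fun d e => ∑ i ∈ range I, z d (e + i)
  have s2 : ∀ e, ∑ i ∈ range I, q (e + i) ≤ ∑ d ∈ range M, lam d * ‖Z d e‖ := fun e => by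
    have e1 : ((∑ i ∈ range I, q (e + i) : ℝ) : ℂ) =
        ∑ d ∈ range M, (lam d : ℂ) * (W d * Z d e) := by
      push_cast
      simp only [Z, z, mul_sum]
      rw [sum_comm]
      refine sum_congr rfl fun i _ => ?_
      simp only [hq]
      rw [ha, ← hc2, mul_sum]
      exact sum_congr rfl fun d _ => by ring
    refine (le_abs_self _).trans ?_
    rw [← Real.norm_eq_abs, ← Complex.norm_real, e1]
    refine (norm_sum_le _ _).trans (sum_le_sum fun d _ => ?_)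
    rw [norm_mul, norm_mul, Complex.norm_real, Real.norm_of_nonneg (hl0 d)]
    exact mul_le_mul_of_nonneg_left (mul_le_of_le_one_left (norm_nonneg _) (hW d)) (hl0 d)
  have s3 : ∀ e, ∑ d ∈ range M, lam d * ‖Z d e‖ ^ 2 ≤ ∑ i ∈ range I, ∑ i' ∈ range I,
      mx ch M lam fun d => B d (e + i) * conj (B d (e + i')) := fun e => by
    have e1 : ((∑ d ∈ range M, lam d * ‖Z d e‖ ^ 2 : ℝ) : ℂ) = ∑ i ∈ range I, ∑ i' ∈ range I,
        ∑ d ∈ range M, (lam d : ℂ) * (z d (e + i) * conj (z d (e + i'))) := by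
      push_cast
      simp only [← Complex.mul_conj', Z, map_sum, sum_mul_sum]
      simp only [mul_sum]
      rw [sum_comm]
      exact sum_congr rfl fun i _ => sum_comm
    refine (le_abs_self _).trans ?_
    rw [← Real.norm_eq_abs, ← Complex.norm_real, e1]
    refine (norm_sum_le _ _).trans (sum_le_sum fun i _ => (norm_sum_le _ _).trans
      (sum_le_sum fun i' _ => ?_))
    obtain ⟨b, hb⟩ := hcl (a (e + i)) (a (e + i'))
    have e2 : ∑ d ∈ range M, (lam d : ℂ) * (z d (e + i) * conj (z d (e + i'))) =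
        (c (e + i) * conj (c (e + i'))) *
          ∑ d ∈ range M, (lam d : ℂ) * (ch b d * (B d (e + i) * conj (B d (e + i')))) := by
      rw [mul_sum]
      refine sum_congr rfl fun d _ => ?_
      simp only [z, map_mul]
      rw [← hb]
      ring
    rw [e2, norm_mul, norm_mul, Complex.norm_conj]
    exact (mul_le_of_le_one_left (norm_nonneg _)
      (mul_le_one₀ (hc1 _) (norm_nonneg _) (hc1 _))).trans (le_mx _ b)
  have s4 : ∀ e, (I : ℝ)⁻¹ * ∑ i ∈ range I, q (e + i) ≤ t / 2 + (2 * t)⁻¹ *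
      ((I : ℝ)⁻¹ * (I : ℝ)⁻¹ * ∑ i ∈ range I, ∑ i' ∈ range I,
        mx ch M lam fun d => B d (e + i) * conj (B d (e + i'))) := fun e => by
    have k : ∀ d ∈ range M, (I : ℝ)⁻¹ * (lam d * ‖Z d e‖) ≤
        t / 2 * lam d + (2 * t)⁻¹ * ((I : ℝ)⁻¹ * (I : ℝ)⁻¹) * (lam d * ‖Z d e‖ ^ 2) := by
      intro d _
      have k1 : (I : ℝ)⁻¹ * ‖Z d e‖ ≤ t / 2 + (2 * t)⁻¹ * ((I : ℝ)⁻¹ * ‖Z d e‖) ^ 2 := by
        generalize (I : ℝ)⁻¹ * ‖Z d e‖ = y
        rw [← sub_nonneg]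
        have : t / 2 + (2 * t)⁻¹ * y ^ 2 - y = (2 * t)⁻¹ * (y - t) ^ 2 := by
          field_simp
          ring
        rw [this]
        positivity
      refine le_trans (le_of_eq ?_) ((mul_le_mul_of_nonneg_left k1 (hl0 d)).trans (le_of_eq ?_))
      · ring
      · ring
    have k2 := sum_le_sum k
    rw [← mul_sum, sum_add_distrib, ← mul_sum, ← mul_sum] at k2
    have k3 := mul_le_mul_of_nonneg_left (s2 e) (inv_pos.2 I0).le
    have k4 := mul_le_mul_of_nonneg_left (s3 e)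
      (show 0 ≤ (2 * t)⁻¹ * ((I : ℝ)⁻¹ * (I : ℝ)⁻¹) by positivity)
    have k5 := mul_le_mul_of_nonneg_left hl1 (show 0 ≤ t / 2 by positivity)
    rw [mul_assoc] at k4
    rw [mul_assoc] at k2
    linarith
  refine s1.trans ?_
  have s5 := sum_le_sum fun e (_ : e ∈ range M) => mul_le_mul_of_nonneg_left (s4 e) (hρ0 e)
  simp only [mul_add, sum_add_distrib] at s5
  have e1 : ∑ e ∈ range M, ρ e * ((2 * t)⁻¹ * ((I : ℝ)⁻¹ * (I : ℝ)⁻¹ * ∑ i ∈ range I,
      ∑ i' ∈ range I, mx ch M lam fun d => B d (e + i) * conj (B d (e + i')))) =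
      (2 * t)⁻¹ * ((I : ℝ)⁻¹ * (I : ℝ)⁻¹ * ∑ i ∈ range I, ∑ i' ∈ range I, ∑ e ∈ range M,
        ρ e * mx ch M lam fun d => B d (e + i) * conj (B d (e + i'))) := by
    have e2 : ∑ i ∈ range I, ∑ i' ∈ range I, ∑ e ∈ range M,
        ρ e * (mx ch M lam fun d => B d (e + i) * conj (B d (e + i'))) =
        ∑ e ∈ range M, ρ e * ∑ i ∈ range I, ∑ i' ∈ range I,
          mx ch M lam fun d => B d (e + i) * conj (B d (e + i')) := by
      simp only [mul_sum]
      rw [sum_comm (s := range M)]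
      exact sum_congr rfl fun i _ => sum_comm
    rw [e2, mul_sum, mul_sum]
    exact sum_congr rfl fun e _ => by ring
  rw [e1, ← sum_mul] at s5
  have k5 := mul_le_mul_of_nonneg_right hρ1 (show 0 ≤ t / 2 by positivity)
  linarith

end

end Pool.Agent.MP_154433_an.Mau

end
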